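import Pool.Agent.J6H36.BSV.Defs3

/-!
# Project BSV, module LIFT: automorphisms of `Ω` with a given value at a transcendental element
-/

set_option autoImplicit false

universe u w

namespace Pool.Agent.J6H57.BSV

open Polynomial IntermediateField Pool.Agent.J6H36.BSV

theorem lift_closure (k Ω : Type u) [Field k] [Field Ω] [Algebra k Ω] [IsAlgClosed Ω] (t : Ω)
    (h : ∀ x : Ω, IsAlgebraic (Algebra.adjoin k ({t} : Set Ω)) x) :
    IsAlgClosure (Algebra.adjoin k ({t} : Set Ω)) Ω where
  isAlgClosed := inferInstance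
  isAlgebraic := ⟨h⟩

theorem t_LIFT : S_LIFT.{u} := by
  intro k Ω _ _ _ _ t t' ht hx ht' hx'
  have i1 := lift_closure k Ω t hx
  have i2 := lift_closure k Ω t' hx'
  let e : Algebra.adjoin k ({t} : Set Ω) ≃ₐ[k] Algebra.adjoin k ({t'} : Set Ω) :=
    (Polynomial.algEquivOfTranscendental k t ht).symm.trans
      (Polynomial.algEquivOfTranscendental k t' ht')
  let τ : Ω ≃+* Ω := IsAlgClosure.equivOfEquiv Ω Ω e.toRingEquiv
  have hτ : ∀ s : Algebra.adjoin k ({t} : Set Ω), τ (s : Ω) = (e s : Ω) := fun s =>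
    IsAlgClosure.equivOfEquiv_algebraMap Ω Ω e.toRingEquiv s
  refine ⟨AlgEquiv.ofRingEquiv (f := τ) fun a => ?_, ?_⟩
  · have h1 := hτ (algebraMap k _ a)
    rw [AlgEquiv.commutes] at h1
    exact h1
  · have h1 := hτ ⟨t, Algebra.self_mem_adjoin_singleton k t⟩
    have h2 : e ⟨t, Algebra.self_mem_adjoin_singleton k t⟩ =
        ⟨t', Algebra.self_mem_adjoin_singleton k t'⟩ := by
      show Polynomial.algEquivOfTranscendental k t' ht'
        ((Polynomial.algEquivOfTranscendental k t ht).symm _) = _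
      rw [Polynomial.algEquivOfTranscendental_symm_gen,
        Polynomial.algEquivOfTranscendental_apply_X]
    rw [h2] at h1
    exact h1

end Pool.Agent.J6H57.BSV
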